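import Pool.Agent.GT.StmtsF

/-!
# Squad GT, row F_TOR: the points of order two
-/

set_option autoImplicit false

namespace Pool.Agent.GT.F.H77

open Polynomial Pool.Agent.NJ

section

variable {K : Type} [Field K] (W : WeierstrassCurve K) (e : Fin 3 → K)

/-- `(2 y + a₁ x + a₃)² = 4 ∏ (x - e i)` on the curve -/
theorem eq_sq (hR : Roots W (e 0) (e 1) (e 2)) (x y : K) :
    (2 * y + W.a₁ * x + W.a₃) ^ 2 =
      4 * (y ^ 2 + W.a₁ * x * y + W.a₃ * y - (x ^ 3 + W.a₂ * x ^ 2 + W.a₄ * x + W.a₆)) +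
        4 * ((x - e 0) * (x - e 1) * (x - e 2)) := by
  obtain ⟨h2, h4, h6⟩ := hR
  simp only [WeierstrassCurve.b₂, WeierstrassCurve.b₄, WeierstrassCurve.b₆] at h2 h4 h6
  linear_combination x ^ 2 * h2 + 2 * x * h4 + h6

theorem ns_point [CharZero K] (hR : Roots W (e 0) (e 1) (e 2)) (he : Function.Injective e)
    (i : Fin 3) : W.toAffine.Nonsingular (e i) (-(W.a₁ * e i + W.a₃) / 2) := by
  have h20 : (2 : K) ≠ 0 := two_ne_zero
  have h40 : (4 : K) ≠ 0 := by norm_num
  rw [WeierstrassCurve.Affine.nonsingular_iff']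
  have hy : 2 * (-(W.a₁ * e i + W.a₃) / 2) + W.a₁ * e i + W.a₃ = 0 := by
    field_simp
    ring
  refine ⟨?_, Or.inl ?_⟩
  · rw [WeierstrassCurve.Affine.equation_iff']
    have h1 := eq_sq W e hR (e i) (-(W.a₁ * e i + W.a₃) / 2)
    have h2 : (e i - e 0) * (e i - e 1) * (e i - e 2) = 0 := by
      fin_cases i <;> simp
    rw [hy, h2, mul_zero, add_zero, zero_pow two_ne_zero] at h1
    exact (mul_eq_zero.1 h1.symm).resolve_left h40
  · intro h
    obtain ⟨h2, h4, -⟩ := hR
    simp only [WeierstrassCurve.b₂, WeierstrassCurve.b₄] at h2 h4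
    have h5 : (e i - e (i + 1)) * (e i - e (i + 2)) ≠ 0 := by
      refine mul_ne_zero (sub_ne_zero.2 fun h => ?_) (sub_ne_zero.2 fun h => ?_)
      · have := he h
        revert this
        fin_cases i <;> decide
      · have := he h
        revert this
        fin_cases i <;> decide
    have h6 : (e i - e 0) * (e i - e 1) + (e i - e 0) * (e i - e 2) + (e i - e 1) * (e i - e 2) =
        (e i - e (i + 1)) * (e i - e (i + 2)) := by
      fin_cases i
      · show (e 0 - e 0) * (e 0 - e 1) + (e 0 - e 0) * (e 0 - e 2) + (e 0 - e 1) * (e 0 - e 2) =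
          (e 0 - e 1) * (e 0 - e 2)
        ring
      · show (e 1 - e 0) * (e 1 - e 1) + (e 1 - e 0) * (e 1 - e 2) + (e 1 - e 1) * (e 1 - e 2) =
          (e 1 - e 2) * (e 1 - e 0)
        ring
      · show (e 2 - e 0) * (e 2 - e 1) + (e 2 - e 0) * (e 2 - e 2) + (e 2 - e 1) * (e 2 - e 2) =
          (e 2 - e 0) * (e 2 - e 1)
        ring
    have h7 : 4 * ((e i - e (i + 1)) * (e i - e (i + 2))) = 0 := by
      rw [← h6]
      field_simp at h
      linear_combination (-2) * h - 2 * e i * h2 - 2 * h4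
    rcases mul_eq_zero.1 h7 with h8 | h8
    · exact h40 h8
    · exact h5 h8

theorem y_unique [CharZero K] (hR : Roots W (e 0) (e 1) (e 2)) (i : Fin 3) (y : K)
    (hy : W.toAffine.Nonsingular (e i) y) : 2 * y + W.a₁ * e i + W.a₃ = 0 := by
  have h0 := (WeierstrassCurve.Affine.equation_iff' (W := W.toAffine) _ _).1 hy.1
  have h1 := eq_sq W e hR (e i) y
  have h2 : (e i - e 0) * (e i - e 1) * (e i - e 2) = 0 := by
    fin_cases i <;> simp
  have h3 : (2 * y + W.a₁ * e i + W.a₃) ^ 2 = 0 := by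
    rw [h1, h2]
    have h4 : y ^ 2 + W.a₁ * e i * y + W.a₃ * y -
      (e i ^ 3 + W.a₂ * e i ^ 2 + W.a₄ * e i + W.a₆) = 0 := h0
    rw [h4]
    ring
  exact pow_eq_zero_iff two_ne_zero |>.1 h3

end

theorem f_tor : TorStmt := by
  intro K _ _ _ W e hR he
  have h20 : (2 : K) ≠ 0 := two_ne_zero
  have ha : ∀ P : W.toAffine.Point, P + P = 0 ↔
      P = 0 ∨ ∃ (i : Fin 3) (y : K) (h : W.toAffine.Nonsingular (e i) y), P = .some (e i) y h := by
    intro P
    rw [add_eq_zero_iff_eq_neg]
    rcases P with _ | ⟨x, y, h⟩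
    · exact ⟨fun _ => Or.inl rfl, fun _ => rfl⟩
    · rw [WeierstrassCurve.Affine.Point.neg_some, WeierstrassCurve.Affine.Point.some.injEq]
      constructor
      · rintro ⟨-, hy⟩
        right
        have hy' : 2 * y + W.a₁ * x + W.a₃ = 0 := by
          unfold WeierstrassCurve.Affine.negY at hy
          linear_combination hy
        have h0 := (WeierstrassCurve.Affine.equation_iff' (W := W.toAffine) _ _).1 h.1
        have h1 := eq_sq W e hR x y
        have h4 : y ^ 2 + W.a₁ * x * y + W.a₃ * y -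
          (x ^ 3 + W.a₂ * x ^ 2 + W.a₄ * x + W.a₆) = 0 := h0
        rw [hy', h4, mul_zero, zero_add, zero_pow two_ne_zero] at h1
        have h5 := (mul_eq_zero.1 h1.symm).resolve_left (by norm_num)
        have h6 : ∃ i, x = e i := by
          rcases mul_eq_zero.1 h5 with h6 | h6
          · rcases mul_eq_zero.1 h6 with h6 | h6
            · exact ⟨0, sub_eq_zero.1 h6⟩
            · exact ⟨1, sub_eq_zero.1 h6⟩
          · exact ⟨2, sub_eq_zero.1 h6⟩
        obtain ⟨i, rfl⟩ := h6
        exact ⟨i, y, h, rfl⟩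
      · rintro (h1 | ⟨i, y', h', h1⟩)
        · exact absurd h1 (WeierstrassCurve.Affine.Point.some_ne_zero h)
        · rw [WeierstrassCurve.Affine.Point.some.injEq] at h1
          obtain ⟨rfl, rfl⟩ := h1
          refine ⟨rfl, ?_⟩
          have h2 := y_unique W e hR i y h'
          unfold WeierstrassCurve.Affine.negY
          linear_combination h2
  have hb : ∀ i, ∃ y : K, W.toAffine.Nonsingular (e i) y ∧ 2 * y + W.a₁ * e i + W.a₃ = 0 ∧
      ∀ y', W.toAffine.Nonsingular (e i) y' → y' = y := by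
    intro i
    have h1 := ns_point W e hR he i
    refine ⟨_, h1, y_unique W e hR i _ h1, fun y' hy' => ?_⟩
    have h2 := y_unique W e hR i _ hy'
    have h3 := y_unique W e hR i _ h1
    have h4 : 2 * y' = 2 * (-(W.a₁ * e i + W.a₃) / 2) := by linear_combination h2 - h3
    exact mul_left_cancel₀ h20 h4
  refine ⟨ha, hb, ?_⟩
  choose y hy1 _ hy3 using hb
  have h3 : Nat.card (Option (Fin 3)) = 4 := by
    rw [Nat.card_eq_fintype_card]
    rfl
  rw [← h3]
  symm
  refine Nat.card_congr (Equiv.ofBijective (fun o : Option (Fin 3) => match o with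
    | none => (⟨0, add_zero 0⟩ : {P : W.toAffine.Point // P + P = 0})
    | some i => ⟨.some (e i) (y i) (hy1 i), (ha _).2 (Or.inr ⟨i, y i, hy1 i, rfl⟩)⟩) ⟨?_, ?_⟩)
  · rintro (_ | i) (_ | j) hij
    · rfl
    · exact absurd (congrArg Subtype.val hij).symm
        (WeierstrassCurve.Affine.Point.some_ne_zero (hy1 j))
    · exact absurd (congrArg Subtype.val hij)
        (WeierstrassCurve.Affine.Point.some_ne_zero (hy1 i))
    · have h4 := congrArg Subtype.val hij
      have h5 := (WeierstrassCurve.Affine.Point.some.injEq _ _ _ _ _ _).mp h4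
      rw [he h5.1]
  · rintro ⟨P, hP⟩
    rcases (ha P).1 hP with rfl | ⟨i, y', h', rfl⟩
    · exact ⟨none, rfl⟩
    · refine ⟨some i, Subtype.ext ?_⟩
      have h4 := hy3 i y' h'
      subst h4
      rfl

end Pool.Agent.GT.F.H77
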