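import Pool.Agent.GT.StmtsB

/-!
# Squad GT, block B, row B_CSW: the Cauchy-Schwarz step
-/

open Finset

namespace Pool.Agent.GT.H77

variable {K : ℕ} {X : Type} [Fintype X] [Nonempty X]

theorem av_prod' {α β : Type} [Fintype α] [Fintype β] (f : α × β → ℝ) :
    av f = av (fun b => av (fun a => f (a, b))) := by
  rw [av_prod, av_comm]

/-- an average over pairs: the average over one coordinate of the first point first -/
theorem av_left (j : Fin K) (f : (Fin K → X) × (Fin K → X) → ℝ) :
    av f = av (fun z : (Fin K → X) × (Fin K → X) =>
      av (fun s : X => f (Function.update z.1 j s, z.2))) := by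
  rw [av_prod' f, av_prod']
  congr 1
  funext y
  exact av_update j fun x => f (x, y)

/-- the same for the second point -/
theorem av_right (j : Fin K) (f : (Fin K → X) × (Fin K → X) → ℝ) :
    av f = av (fun z : (Fin K → X) × (Fin K → X) =>
      av (fun s : X => f (z.1, Function.update z.2 j s))) := by
  rw [av_prod, av_prod]
  congr 1
  funext x
  exact av_update j fun y => f (x, y)

theorem b_csw : CswStmt := by
  intro K X _ _ j T V R hTV hT hV hV' hR'
  have hV0 : ∀ z, 0 ≤ V z := fun z => (abs_nonneg _).trans (hTV z)
  set Rb : (Fin K → X) × (Fin K → X) → ℝ := fun z =>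
    av (fun s => R (Function.update z.1 j s, z.2)) with hRb
  -- first step
  have h1 : av (fun z => T z * R z) = av (fun z => T z * Rb z) := by
    rw [av_left j]
    congr 1
    funext z
    rw [hRb]
    simp only [hT]
    exact av_mul_left _ _
  -- third step
  have h3 : av (fun z => V z * (R z * R (Function.update z.1 j (z.2 j), z.2))) =
      av (fun z => V z * Rb z ^ 2) := by
    rw [av_right j]
    simp only [hV', hR', Function.update_self]
    rw [av_left j]
    congr 1
    funext z
    simp only [hV, Function.update_idem]
    rw [hRb]
    simp only [av_mul_left]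
    rw [av_mul_right, sq]
  rw [h1, h3]
  refine ⟨av_nonneg fun z => mul_nonneg (hV0 z) (sq_nonneg _), ?_⟩
  exact av_sq_le T V Rb hTV

end Pool.Agent.GT.H77
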