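import Pool.Agent.GT.StmtsC

/-!
# Squad GT, block C, row C_LAM: the weights of Selberg are bounded by one
-/

open Finset

namespace Pool.Agent.GT.H77

theorem gg_nonneg {P : Finset ℕ} (hP : ∀ p ∈ P, p.Prime) {r : Finset ℕ} (hr : r ⊆ P) :
    0 ≤ gg r := by
  unfold gg
  refine Finset.prod_nonneg fun p hp => ?_
  have h1 : (2 : ℝ) ≤ p := by exact_mod_cast (hP p (hr hp)).two_le
  exact div_nonneg zero_le_one (by linarith)

theorem nn_pos {P : Finset ℕ} (hP : ∀ p ∈ P, p.Prime) {r : Finset ℕ} (hr : r ⊆ P) :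
    0 < nn r := Finset.prod_pos fun p hp => (hP p (hr hp)).pos

theorem nn_le {P : Finset ℕ} (hP : ∀ p ∈ P, p.Prime) {a r : Finset ℕ} (hr : r ⊆ P)
    (har : a ⊆ r) : nn a ≤ nn r :=
  Nat.le_of_dvd (nn_pos hP hr) (Finset.prod_dvd_prod_of_subset _ _ _ har)

theorem gg_union {a b : Finset ℕ} (h : Disjoint a b) : gg (a ∪ b) = gg a * gg b :=
  Finset.prod_union h

theorem nn_union {a b : Finset ℕ} (h : Disjoint a b) : nn (a ∪ b) = nn a * nn b :=
  Finset.prod_union h

theorem GG_pos {P : Finset ℕ} (hP : ∀ p ∈ P, p.Prime) {R : ℕ} (hR : 2 ≤ R) : 0 < GG P R := by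
  have h0 : (∅ : Finset ℕ) ∈ lv P R := by
    unfold lv
    rw [Finset.mem_filter]
    refine ⟨Finset.empty_mem_powerset _, ?_⟩
    unfold nn
    rw [Finset.prod_empty]
    omega
  unfold GG
  have h1 : gg ∅ ≤ ∑ r ∈ lv P R, gg r :=
    Finset.single_le_sum (f := gg) (fun r hr => gg_nonneg hP
      (Finset.mem_powerset.mp (Finset.mem_filter.mp hr).1)) h0
  have h2 : gg ∅ = 1 := by
    unfold gg
    rw [Finset.prod_empty]
  linarith

/-- the key inequality -/
theorem key {P : Finset ℕ} (hP : ∀ p ∈ P, p.Prime) {R : ℕ} {a : Finset ℕ} (ha : a ⊆ P) :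
    (nn a : ℝ) * (∑ r ∈ (lv P R).filter (fun r => a ⊆ r), gg r) ≤ GG P R := by
  set F : Finset (Finset ℕ) := (P \ a).powerset.filter fun r => nn r * nn a < R with hF
  have hdis : ∀ r ∈ F, Disjoint a r := by
    intro r hr
    have h1 := Finset.mem_powerset.mp (Finset.mem_filter.mp hr).1
    exact Finset.disjoint_of_subset_right h1 Finset.disjoint_sdiff
  -- the sum over the sets which contain `a`
  have hS : ∑ r ∈ (lv P R).filter (fun r => a ⊆ r), gg r = gg a * ∑ r ∈ F, gg r := by
    rw [Finset.mul_sum]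
    refine Finset.sum_nbij' (fun r => r \ a) (fun r => a ∪ r) ?_ ?_ ?_ ?_ ?_
    · intro r hr
      rw [Finset.mem_filter] at hr
      obtain ⟨hr1, har⟩ := hr
      unfold lv at hr1
      rw [Finset.mem_filter, Finset.mem_powerset] at hr1
      rw [hF, Finset.mem_filter, Finset.mem_powerset]
      refine ⟨Finset.sdiff_subset_sdiff hr1.1 le_rfl, ?_⟩
      rw [← nn_union Finset.sdiff_disjoint, Finset.sdiff_union_of_subset har]
      exact hr1.2
    · intro r hr
      have h2 := hdis r hr
      rw [hF, Finset.mem_filter, Finset.mem_powerset] at hr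
      rw [Finset.mem_filter]
      refine ⟨?_, Finset.subset_union_left⟩
      unfold lv
      rw [Finset.mem_filter, Finset.mem_powerset]
      refine ⟨Finset.union_subset ha (hr.1.trans Finset.sdiff_subset), ?_⟩
      rw [nn_union h2, mul_comm]
      exact hr.2
    · intro r hr
      exact Finset.union_sdiff_of_subset (Finset.mem_filter.mp hr).2
    · intro r hr
      exact Finset.union_sdiff_cancel_left (hdis r hr)
    · intro r hr
      rw [← gg_union Finset.disjoint_sdiff, Finset.union_sdiff_of_subset (Finset.mem_filter.mp hr).2]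
  -- the sum over the subsets of `a`
  have ha1 : ∑ l ∈ a.powerset, gg l = nn a * gg a := by
    unfold gg nn
    rw [← Finset.prod_one_add, Nat.cast_prod, ← Finset.prod_mul_distrib]
    refine Finset.prod_congr rfl fun p hp => ?_
    have h1 : (2 : ℝ) ≤ p := by exact_mod_cast (hP p (ha hp)).two_le
    have h2 : (p : ℝ) - 1 ≠ 0 := by linarith
    field_simp
    ring
  -- all pairs
  have hG : ∑ q ∈ a.powerset ×ˢ F, gg (q.1 ∪ q.2) ≤ GG P R := by
    have hinj : Set.InjOn (fun q : Finset ℕ × Finset ℕ => q.1 ∪ q.2)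
        (a.powerset ×ˢ F : Finset (Finset ℕ × Finset ℕ)) := by
      have h0 : ∀ q ∈ a.powerset ×ˢ F, (q.1 ∪ q.2) ∩ a = q.1 ∧ (q.1 ∪ q.2) \ a = q.2 := by
        intro q hq
        rw [Finset.mem_product, Finset.mem_powerset] at hq
        have h1 := hdis _ hq.2
        constructor
        · rw [Finset.union_inter_distrib_right, Finset.inter_eq_left.mpr hq.1,
            Finset.disjoint_iff_inter_eq_empty.mp h1.symm, Finset.union_empty]
        · rw [Finset.union_sdiff_distrib, Finset.sdiff_eq_empty_iff_subset.mpr hq.1,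
            Finset.empty_union, Finset.sdiff_eq_self_of_disjoint h1.symm]
      intro q hq q' hq' h
      have h1 := h0 q (Finset.mem_coe.mp hq)
      have h2 := h0 q' (Finset.mem_coe.mp hq')
      have h' : q.1 ∪ q.2 = q'.1 ∪ q'.2 := h
      rw [h'] at h1
      exact Prod.ext (h1.1.symm.trans h2.1) (h1.2.symm.trans h2.2)
    rw [← Finset.sum_image (f := gg) hinj]
    unfold GG
    refine Finset.sum_le_sum_of_subset_of_nonneg ?_ fun r hr _ => gg_nonneg hP
      (Finset.mem_powerset.mp (Finset.mem_filter.mp hr).1)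
    intro r hr
    obtain ⟨q, hq, rfl⟩ := Finset.mem_image.mp hr
    rw [Finset.mem_product, Finset.mem_powerset] at hq
    have h1 := hdis _ hq.2
    have h2 := Finset.mem_filter.mp hq.2
    have h3 := Finset.mem_powerset.mp h2.1
    unfold lv
    rw [Finset.mem_filter, Finset.mem_powerset]
    refine ⟨Finset.union_subset (hq.1.trans ha) (h3.trans Finset.sdiff_subset), ?_⟩
    rw [nn_union (Finset.disjoint_of_subset_left hq.1 h1), mul_comm]
    exact lt_of_le_of_lt (Nat.mul_le_mul_left _ (nn_le hP ha hq.1)) h2.2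
  have hG2 : ∑ q ∈ a.powerset ×ˢ F, gg (q.1 ∪ q.2) = (nn a * gg a) * ∑ r ∈ F, gg r := by
    rw [← ha1, Finset.sum_mul_sum, Finset.sum_product]
    refine Finset.sum_congr rfl fun l hl => Finset.sum_congr rfl fun r hr => ?_
    exact gg_union (Finset.disjoint_of_subset_left (Finset.mem_powerset.mp hl) (hdis r hr))
  rw [hS, ← mul_assoc, ← hG2]
  exact hG

theorem c_lam : LamStmt := by
  intro P R hP hR
  have hG := GG_pos hP hR
  refine ⟨?_, ?_, ?_⟩
  · unfold lam
    have h1 : (lv P R).filter (fun r => ∅ ⊆ r) = lv P R :=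
      Finset.filter_true_of_mem fun r _ => Finset.empty_subset r
    rw [h1, Finset.card_empty, pow_zero, one_mul]
    have h2 : nn ∅ = 1 := Finset.prod_empty
    rw [h2, Nat.cast_one, one_mul]
    exact div_self hG.ne'
  · intro a ha
    unfold lam
    have h0 : 0 ≤ ∑ r ∈ (lv P R).filter (fun r => a ⊆ r), gg r :=
      Finset.sum_nonneg fun r hr => gg_nonneg hP
        (Finset.mem_powerset.mp (Finset.mem_filter.mp (Finset.mem_filter.mp hr).1).1)
    rw [abs_div, abs_mul, abs_mul, abs_pow, abs_neg, abs_one, one_pow, one_mul, Nat.abs_cast,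
      abs_of_nonneg h0, abs_of_pos hG, div_le_one hG]
    exact key hP ha
  · intro a ha
    unfold lam
    have h1 : (lv P R).filter (fun r => a ⊆ r) = ∅ := by
      rw [Finset.filter_eq_empty_iff]
      intro r hr har
      unfold lv at hr
      rw [Finset.mem_filter, Finset.mem_powerset] at hr
      have := nn_le hP hr.1 har
      omega
    rw [h1, Finset.sum_empty, mul_zero, zero_div]

end Pool.Agent.GT.H77
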