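import Pool.Agent.GT.StmtsD

/-!
# Squad GT, row D_ADD: additivity of the functions of classes
-/

set_option autoImplicit false

namespace Pool.Agent.GT.D.H77

open Polynomial Pool.Agent.NJ

theorem un_spec (p : ℕ) (n : ℤ) : n = (p : ℤ) ^ padicValInt p n * un p n :=
  (Int.mul_ediv_cancel' (padicValInt_dvd n)).symm

theorem un_mul {p : ℕ} (hp : p.Prime) {m n : ℤ} (hm : m ≠ 0) (hn : n ≠ 0) :
    un p (m * n) = un p m * un p n := by
  have := Fact.mk hp
  have h0 : ((p : ℤ) ^ padicValInt p (m * n)) ≠ 0 :=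
    pow_ne_zero _ (by exact_mod_cast hp.ne_zero)
  apply mul_left_cancel₀ h0
  rw [← un_spec p (m * n), padicValInt.mul hm hn, pow_add]
  calc m * n = ((p : ℤ) ^ padicValInt p m * un p m) * ((p : ℤ) ^ padicValInt p n * un p n) := by
        rw [← un_spec p m, ← un_spec p n]
    _ = _ := by ring

theorem un_nd {p : ℕ} (hp : p.Prime) {n : ℤ} (hn : n ≠ 0) : ¬ (p : ℤ) ∣ un p n := by
  have := Fact.mk hp
  rintro ⟨k, hk⟩
  have h1 : (p : ℤ) ^ (padicValInt p n + 1) ∣ n := by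
    refine ⟨k, ?_⟩
    calc n = (p : ℤ) ^ padicValInt p n * un p n := un_spec p n
      _ = _ := by rw [hk, pow_succ]; ring
  rcases (padicValInt_dvd_iff _ n).mp h1 with h2 | h2
  · exact hn h2
  · omega

theorem adf_vl (p : ℕ) (hp : p.Prime) : Adf (vl p) := by
  refine ⟨fun m n hm hn => ?_⟩
  have := Fact.mk hp
  unfold vl
  rw [padicValInt.mul hm hn, Nat.cast_add]

theorem adf_ul (p : ℕ) (hp : p.Prime) (_ : p ≠ 2) : Adf (ul p) := by
  refine ⟨fun m n hm hn => ?_⟩
  have := Fact.mk hp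
  have hz : ∀ k : ℤ, k ≠ 0 → ((un p k : ℤ) : ZMod p) ≠ 0 := fun k hk h =>
    un_nd hp hk ((ZMod.intCast_zmod_eq_zero_iff_dvd _ _).mp h)
  have hmz := hz m hm
  have hnz := hz n hn
  have hmn : ((un p (m * n) : ℤ) : ZMod p) = ((un p m : ℤ) : ZMod p) * ((un p n : ℤ) : ZMod p) := by
    rw [un_mul hp hm hn, Int.cast_mul]
  have hc := map_mul (quadraticChar (ZMod p)) ((un p m : ℤ) : ZMod p) ((un p n : ℤ) : ZMod p)
  have e1 := quadraticChar_one_iff_isSquare hmz
  have e2 := quadraticChar_one_iff_isSquare hnz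
  have e3 := quadraticChar_one_iff_isSquare (mul_ne_zero hmz hnz)
  have d1 := quadraticChar_dichotomy hmz
  have d2 := quadraticChar_dichotomy hnz
  unfold ul
  rw [hmn]
  rw [hc] at e3
  have n1 : ¬ ((-1 : ℤ) = 1) := by norm_num
  have n2 : ¬ ((1 * -1 : ℤ) = 1) := by norm_num
  have n3 : ¬ ((-1 * 1 : ℤ) = 1) := by norm_num
  rcases d1 with d1 | d1 <;> rcases d2 with d2 | d2 <;> rw [d1, d2] at e3 <;>
    rw [d1] at e1 <;> rw [d2] at e2
  · have s1 := e1.mp rfl
    have s2 := e2.mp rfl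
    have s3 := e3.mp (by norm_num)
    rw [if_pos s3, if_pos s1, if_pos s2]
    decide
  · have s1 := e1.mp rfl
    have s2 := fun h => n1 (e2.mpr h)
    have s3 := fun h => n2 (e3.mpr h)
    rw [if_neg s3, if_pos s1, if_neg s2]
    decide
  · have s1 := fun h => n1 (e1.mpr h)
    have s2 := e2.mp rfl
    have s3 := fun h => n3 (e3.mpr h)
    rw [if_neg s3, if_neg s1, if_pos s2]
    decide
  · have s1 := fun h => n1 (e1.mpr h)
    have s2 := fun h => n1 (e2.mpr h)
    have s3 := e3.mp (by norm_num)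
    rw [if_pos s3, if_neg s1, if_neg s2]
    decide

theorem adf_l4 : Adf l4 := by
  refine ⟨fun m n hm hn => ?_⟩
  have h1 := un_nd Nat.prime_two hm
  have h2 := un_nd Nat.prime_two hn
  unfold l4
  rw [un_mul Nat.prime_two hm hn]
  generalize un 2 m = x at *
  generalize un 2 n = y at *
  have hx : x % 4 = 1 ∨ x % 4 = 3 := by push_cast at h1; omega
  have hy : y % 4 = 1 ∨ y % 4 = 3 := by push_cast at h2; omega
  rw [Int.mul_emod]
  rcases hx with hx | hx <;> rcases hy with hy | hy <;> rw [hx, hy] <;> decide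

theorem adf_l8 : Adf l8 := by
  refine ⟨fun m n hm hn => ?_⟩
  have h1 := un_nd Nat.prime_two hm
  have h2 := un_nd Nat.prime_two hn
  unfold l8
  rw [un_mul Nat.prime_two hm hn]
  generalize un 2 m = x at *
  generalize un 2 n = y at *
  have hx : x % 8 = 1 ∨ x % 8 = 3 ∨ x % 8 = 5 ∨ x % 8 = 7 := by push_cast at h1; omega
  have hy : y % 8 = 1 ∨ y % 8 = 3 ∨ y % 8 = 5 ∨ y % 8 = 7 := by push_cast at h2; omega
  rw [Int.mul_emod]
  rcases hx with hx | hx | hx | hx <;> rcases hy with hy | hy | hy | hy <;> rw [hx, hy] <;> decide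

theorem adf_sg : Adf sg := by
  refine ⟨fun m n hm hn => ?_⟩
  unfold sg
  rcases lt_or_gt_of_ne hm with h1 | h1 <;> rcases lt_or_gt_of_ne hn with h2 | h2
  · rw [if_neg (not_lt.mpr (mul_pos_of_neg_of_neg h1 h2).le), if_pos h1, if_pos h2]
    decide
  · rw [if_pos (mul_neg_of_neg_of_pos h1 h2), if_pos h1, if_neg (not_lt.mpr h2.le)]
    decide
  · rw [if_pos (mul_neg_of_pos_of_neg h1 h2), if_neg (not_lt.mpr h1.le), if_pos h2]
    decide
  · rw [if_neg (not_lt.mpr (mul_pos h1 h2).le), if_neg (not_lt.mpr h1.le),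
      if_neg (not_lt.mpr h2.le)]
    decide

theorem d_add : AddStmt := ⟨adf_vl, adf_ul, adf_l4, adf_l8, adf_sg⟩

end Pool.Agent.GT.D.H77
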