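import Pool.Agent.GT.StmtsA

/-!
# Squad GT, block A, row A_MON: one length is enough
-/

open Finset

namespace Pool.Agent.GT.H77

theorem a_mon : MonStmt := by
  intro k n δ hk H ι _ hn A hA
  classical
  set r := Fintype.card ι - n with hr
  have e : ι ≃ Fin n ⊕ Fin r := Fintype.equivOfCardEq (by
    rw [Fintype.card_sum, Fintype.card_fin, Fintype.card_fin]
    omega)
  let Φ : (Fin n → Fin k) × (Fin r → Fin k) ≃ (ι → Fin k) :=
    (Equiv.sumArrowEquivProdArrow (Fin n) (Fin r) (Fin k)).symm.trans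
      (e.arrowCongr (Equiv.refl (Fin k))).symm
  have hΦ : ∀ x z i, Φ (x, z) i = Sum.elim x z (e i) := fun _ _ _ => rfl
  have h1 : (A.card : ℝ) = ∑ z, ∑ x, if Φ (x, z) ∈ A then (1 : ℝ) else 0 := by
    rw [← Fintype.sum_prod_type_right (f := fun p => if Φ p ∈ A then (1 : ℝ) else 0),
      Fintype.sum_equiv Φ _ (fun w => if w ∈ A then (1 : ℝ) else 0) (fun _ => rfl)]
    simp
  have h2 : ∃ z : Fin r → Fin k, δ * (k : ℝ) ^ n ≤ ((univ.filter fun x => Φ (x, z) ∈ A).card : ℝ) := by
    by_contra hcon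
    push Not at hcon
    have : Nonempty (Fin k) := ⟨⟨0, hk⟩⟩
    have h3 : ∑ z : Fin r → Fin k, (∑ x, if Φ (x, z) ∈ A then (1 : ℝ) else 0) <
        ∑ _z : Fin r → Fin k, δ * (k : ℝ) ^ n := by
      refine Finset.sum_lt_sum_of_nonempty Finset.univ_nonempty fun z _ => ?_
      have h4 := hcon z
      rw [Finset.card_filter] at h4
      push_cast at h4
      exact h4
    rw [← h1, Finset.sum_const, Finset.card_univ, Fintype.card_fun, Fintype.card_fin,
      Fintype.card_fin, nsmul_eq_mul] at h3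
    have h5 : (k : ℝ) ^ Fintype.card ι = (k : ℝ) ^ r * (k : ℝ) ^ n := by
      rw [← pow_add]
      congr 1
      omega
    rw [h5] at hA
    push_cast at h3
    linarith
  obtain ⟨z, hz⟩ := h2
  obtain ⟨w, ⟨i₀, hi₀⟩, hw⟩ := H _ hz
  refine ⟨fun i => Sum.elim w (fun j => some (z j)) (e i), ⟨e.symm (Sum.inl i₀), ?_⟩, fun a => ?_⟩
  · simp [hi₀]
  · have h6 := (Finset.mem_filter.mp (hw a)).2
    have h7 : lp (fun i => Sum.elim w (fun j => some (z j)) (e i)) a = Φ (lp w a, z) := by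
      funext i
      rw [hΦ]
      simp only [lp]
      rcases e i with j | j <;> rfl
    rw [h7]
    exact h6

end Pool.Agent.GT.H77
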